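import Mathlib

namespace Pool.Agent.Results.MP_6f811f_co.Balanced
open Finset

theorem count (s : ℕ) (S : Finset (Fin s × Fin (s + 1))) (h1 : ∀ i, ∃ c, (i, c) ∈ S)
    (h2 : ∀ π : Equiv.Perm (Fin (s + 1)), ∃ i, (i, π i.castSucc) ∈ S) : 2 * s ≤ S.card := by
  classical
  have hall : ¬ ∀ I : Finset (Fin s), I.card ≤
      (I.biUnion (fun i => univ.filter (fun c => (i, c) ∉ S))).card := by
    rw [all_card_le_biUnion_card_iff_exists_injective]
    rintro ⟨f, hf, hm⟩
    obtain ⟨π, hπ⟩ := Equiv.Perm.exists_extending_pair _ _ (Fin.castSucc_injective s) hf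
    obtain ⟨i, hi⟩ := h2 π
    rw [hπ] at hi
    exact (mem_filter.mp (hm i)).2 hi
  push Not at hall
  obtain ⟨I, hI⟩ := hall
  set U := I.biUnion (fun i => univ.filter (fun c => (i, c) ∉ S)) with hU
  have cJ : Uᶜ.card + U.card = s + 1 := by
    rw [card_compl, Fintype.card_fin]
    have := card_le_univ U
    rw [Fintype.card_fin] at this; omega
  have cI : Iᶜ.card + I.card = s := by
    rw [card_compl, Fintype.card_fin]
    have := card_le_univ I
    rw [Fintype.card_fin] at this; omega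
  rw [card_eq_sum_card_fiberwise (f := Prod.fst) (t := univ) (fun _ _ => mem_coe.mpr (mem_univ _)),
    ← sum_add_sum_compl I]
  have a1 : I.card • Uᶜ.card ≤ ∑ i ∈ I, (S.filter (fun p => p.1 = i)).card := by
    refine card_nsmul_le_sum _ _ _ (fun i hi => ?_)
    refine card_le_card_of_injOn (fun c => (i, c)) (fun c hc => ?_) (fun a _ b _ h => (Prod.mk.inj h).2)
    simp only [coe_compl, Set.mem_compl_iff, mem_coe, hU, mem_biUnion, mem_filter, mem_univ, true_and,
      not_exists, not_and, not_not, coe_filter, Set.mem_ofPred_eq, and_true] at hc ⊢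
    exact hc i hi
  have a2 : Iᶜ.card • 1 ≤ ∑ i ∈ Iᶜ, (S.filter (fun p => p.1 = i)).card := by
    refine card_nsmul_le_sum _ _ _ (fun i _ => ?_)
    obtain ⟨c, hc⟩ := h1 i
    exact card_pos.mpr ⟨(i, c), mem_filter.mpr ⟨hc, rfl⟩⟩
  rw [smul_eq_mul] at a1 a2
  obtain ⟨k, hk⟩ : ∃ k, I.card = k + 1 := ⟨I.card - 1, by omega⟩
  have a3 : Iᶜ.card + 2 ≤ Uᶜ.card := by omega
  have a4 := Nat.mul_le_mul_left I.card a3
  rw [hk] at a1 a4 cI
  nlinarith [Nat.zero_le (k * Iᶜ.card)]

theorem result (r n : ℕ) (hr : 2 ≤ r) (hn : r.factorial ≤ n) :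
    ∃ c : Fin n → Fin n → Fin r, ∀ (t : ℕ)
      (H : Fin t → (completeBipartiteGraph (Fin n) (Fin n)).Subgraph) (col : Fin t → Fin r),
      (∀ i, (H i).coe.IsTree) →
      (∀ i a b, (H i).Adj (Sum.inl a) (Sum.inr b) → c a b = col i) →
      (∀ v, ∃ i, v ∈ (H i).verts) → 2 * r - 2 ≤ t := by
  classical
  obtain ⟨s, rfl⟩ : ∃ s, r = s + 1 := ⟨r - 1, by omega⟩
  have : Nonempty (Fin s) := ⟨⟨0, by omega⟩⟩
  obtain ⟨e1⟩ := Function.Embedding.nonempty_of_card_le (α := Equiv.Perm (Fin (s + 1))) (β := Fin n)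
    (by simpa [Fintype.card_perm] using hn)
  obtain ⟨e2⟩ := Function.Embedding.nonempty_of_card_le (α := Fin s) (β := Fin n)
    (by have := Nat.self_le_factorial (s + 1); simp; omega)
  obtain ⟨ψ, hψ⟩ : ∃ ψ : Fin n → Equiv.Perm (Fin (s + 1)), Function.Surjective ψ :=
    ⟨_, Function.invFun_surjective e1.injective⟩
  obtain ⟨φ, hφ⟩ : ∃ φ : Fin n → Fin s, Function.Surjective φ :=
    ⟨_, Function.invFun_surjective e2.injective⟩
  refine ⟨fun a b => ψ b (φ a).castSucc, fun t H col hT hc hv => ?_⟩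
  let good : Fin s × Fin (s + 1) → Fin n ⊕ Fin n → Prop := fun p v =>
    Sum.elim (fun a => φ a = p.1) (fun b => ψ b p.1.castSucc = p.2) v
  have cell : ∀ i, ∃ p, ∀ v ∈ (H i).verts, good p v := by
    intro i
    have con := (hT i).connected
    have prop : ∀ ρ, ∀ u : (H i).verts, good (ρ, col i) u → ∀ v ∈ (H i).verts, good (ρ, col i) v := by
      intro ρ u hu v hv'
      have := (SimpleGraph.reachable_iff_reflTransGen _ _).mp (con.preconnected u ⟨v, hv'⟩)
      suffices h : ∀ w : (H i).verts, Relation.ReflTransGen (H i).coe.Adj u w → good (ρ, col i) w from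
        h _ this
      intro w hw
      induction hw with
      | refl => exact hu
      | tail _ hadj ih =>
        rename_i x y _
        obtain ⟨x, hx⟩ := x
        obtain ⟨y, hy⟩ := y
        have ha : (H i).Adj x y := hadj
        have hb := (H i).adj_sub ha
        rcases x with a | b <;> rcases y with a' | b'
        · simp at hb
        · have := hc i a b' ha
          have ih' : φ a = ρ := ih
          show ψ b' ρ.castSucc = col i
          rw [← ih']; exact this
        · have := hc i a' b ha.symm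
          have ih' : ψ b ρ.castSucc = col i := ih
          show φ a' = ρ
          exact Fin.castSucc_injective s ((ψ b).injective (this.trans ih'.symm))
        · simp at hb
    by_cases hl : ∃ a, Sum.inl a ∈ (H i).verts
    · obtain ⟨a, ha⟩ := hl
      exact ⟨_, prop (φ a) ⟨_, ha⟩ rfl⟩
    · obtain ⟨⟨u, hu⟩⟩ := con.nonempty
      rcases u with a | b
      · exact absurd ⟨a, hu⟩ hl
      obtain ⟨ρ⟩ := (inferInstance : Nonempty (Fin s))
      refine ⟨(ρ, ψ b ρ.castSucc), fun v hv' => ?_⟩
      have := (SimpleGraph.reachable_iff_reflTransGen _ _).mp (con.preconnected ⟨_, hu⟩ ⟨v, hv'⟩)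
      rcases this.cases_head with h | ⟨⟨y, hy⟩, h, _⟩
      · have : Sum.inr b = v := congrArg Subtype.val h
        rw [← this]; rfl
      · have ha : (H i).Adj (Sum.inr b) y := h
        have hb := (H i).adj_sub ha
        rcases y with a' | b'
        · exact absurd ⟨a', hy⟩ hl
        · simp at hb
  choose p hp using cell
  have := count s (univ.image p) (by
    intro i
    obtain ⟨a, rfl⟩ := hφ i
    obtain ⟨j, hj⟩ := hv (Sum.inl a)
    have : φ a = (p j).1 := hp j _ hj
    exact ⟨(p j).2, mem_image.mpr ⟨j, mem_univ _, by rw [this]⟩⟩) (by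
    intro π
    obtain ⟨b, rfl⟩ := hψ π
    obtain ⟨j, hj⟩ := hv (Sum.inr b)
    have : ψ b (p j).1.castSucc = (p j).2 := hp j _ hj
    exact ⟨(p j).1, mem_image.mpr ⟨j, mem_univ _, by rw [this]⟩⟩)
  have h2 := card_image_le (s := (univ : Finset (Fin t))) (f := p)
  rw [card_univ, Fintype.card_fin] at h2
  omega

end Pool.Agent.Results.MP_6f811f_co.Balanced
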